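import Pool.Agent.H91.CUBE.FunLim
import Pool.Agent.H10.CM.FunStep

set_option autoImplicit false

/-!
# MP_47888e_al, cube project: `FunLimStmt` of helper10 (lemma FUN)
-/

namespace Pool.CM.FUN

theorem funLimStmt : Pool.CM.T2.FunLimStmt := by
  intro X E _ A hA hE K _ T hT m u _ _ _ Z Z' hZZ x δ hδ
  exact funlim A hA hE All.xph T hT Z Z' hZZ x δ hδ

end Pool.CM.FUN
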