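import Pool.Agent.H91.CUBE.Fun
import Pool.Agent.H93.CUBE.LDefs
import Pool.Agent.H50.CUBE.D2

set_option autoImplicit false

/-!
# MP_47888e_al, cube project, lemma FUN: asymptotic version

* `TG.base A : TG A E`, `TG.inf A : TG A.ext (LaurentSeries E)` (expansion at infinity);
* `TG.Rg` : fixed elements have integral truncated Frobenius images (`base_Rg`, `lau_Rg`,
  `inf_Rg`);
* `funlim` : **lemma FUN**: multiplied compatibility passes to the limit.
-/

open Polynomial

namespace Pool.CM.FUN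

variable {X : Idx} {E : Type} [Field E]

theorem dv_add {A : PF X E} {i : X.I} {M : ℕ} {x y : E} (hx : A.Dv i M x) (hy : A.Dv i M y) :
    A.Dv i M (x + y) := by
  obtain ⟨a, ha, rfl⟩ := hx
  obtain ⟨b, hb, rfl⟩ := hy
  exact ⟨a + b, (A.O i).add_mem ha hb, by ring⟩

theorem dv_zero {A : PF X E} {i : X.I} {M : ℕ} : A.Dv i M 0 := ⟨0, (A.O i).zero_mem, by simp⟩

theorem dv_neg {A : PF X E} {i : X.I} {M : ℕ} {x : E} (hx : A.Dv i M x) : A.Dv i M (-x) := by
  obtain ⟨a, ha, rfl⟩ := hx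
  exact ⟨-a, (A.O i).neg_mem ha, by ring⟩

theorem dv_mono {A : PF X E} {i : X.I} {M M' : ℕ} (h : M' ≤ M) {x : E} (hx : A.Dv i M x) :
    A.Dv i M' x := by
  obtain ⟨a, ha, rfl⟩ := hx
  refine ⟨(X.p i : E) ^ (M - M') * a, (A.O i).mul_mem ((A.O i).pow_mem (O_nat i _) _) ha, ?_⟩
  rw [← mul_assoc, ← pow_add, Nat.add_sub_cancel' h]

/-- The elements divisible by `p ^ M`. -/
def dvG (A : PF X E) (i : X.I) (M : ℕ) : AddSubgroup E where
  carrier := {x | A.Dv i M x}
  add_mem' := dv_add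
  zero_mem' := dv_zero
  neg_mem' := dv_neg

/-- The base test groups: `K = E`. -/
noncomputable def TG.base (A : PF X E) (hA : A.Ax) : TG A E where
  ι := RingHom.id E
  φ i := A.phi i
  φι _ _ := rfl
  Z i M _ := dvG A i M
  anti i M M' L L' hM _ _ hx := dv_mono hM hx
  pol i M L d x z hx hz := dv_mul (hA.pol_O i d x hx) hz
  pw i M L z hz := by
    obtain ⟨y, hy, rfl⟩ := hz
    exact ⟨y, hy, by rw [pow_zero, one_mul]⟩

theorem phiL_single1 {R : Type} [CommRing R] (φ : R →+* R) (p : ℕ) (hp : 0 < p) (j : ℤ) :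
    phiL φ p hp (HahnSeries.single j (1 : R)) = HahnSeries.single ((p : ℤ) * j) 1 := by
  have hp0 : (p : ℤ) ≠ 0 := by exact_mod_cast hp.ne'
  ext k
  by_cases hk : (p : ℤ) ∣ k
  · obtain ⟨l, rfl⟩ := hk
    rw [phiL_coeff_mul, HahnSeries.coeff_single, HahnSeries.coeff_single]
    by_cases hl : l = j
    · rw [if_pos hl, if_pos (by rw [hl]), map_one]
    · rw [if_neg hl, if_neg (fun h => hl (mul_left_cancel₀ hp0 h)), map_zero]
  · rw [phiL_coeff_not _ _ _ _ _ hk, HahnSeries.coeff_single, if_neg]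
    rintro rfl
    exact hk (dvd_mul_right _ _)

theorem phiX (A : PF X E) (i : X.I) :
    A.ext.phi i (algebraMap E[X] (RatFunc E) Polynomial.X) =
      algebraMap E[X] (RatFunc E) Polynomial.X ^ X.p i := by
  change phiR (A.phi i) (X.p i) (X.hp i).pos _ = _
  rw [phiR_algebraMap, phiP_apply, map_X, expand_X, map_pow]

theorem phiC (A : PF X E) (i : X.I) (c : E) :
    A.ext.phi i (algebraMap E[X] (RatFunc E) (Polynomial.C c)) =
      algebraMap E[X] (RatFunc E) (Polynomial.C (A.phi i c)) := by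
  change phiR (A.phi i) (X.p i) (X.hp i).pos _ = _
  rw [phiR_algebraMap, phiP_apply, map_C, expand_C]

theorem infC (c : E) : Pool.CUBE.D.exInf E (algebraMap E[X] (RatFunc E) (Polynomial.C c)) =
    HahnSeries.C c := by
  rw [Pool.CUBE.D.exInf_algebraMap]
  change eval₂ _ _ (C c) = _
  rw [eval₂_C]

theorem infX : Pool.CUBE.D.exInf E (algebraMap E[X] (RatFunc E) Polynomial.X) =
    HahnSeries.single (-1) 1 := by
  rw [Pool.CUBE.D.exInf_algebraMap]
  change eval₂ _ _ X = _
  rw [eval₂_X]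

theorem inf_phi (A : PF X E) (i : X.I) (x : RatFunc E) :
    phiL (A.phi i) (X.p i) (X.hp i).pos (Pool.CUBE.D.exInf E x) =
      Pool.CUBE.D.exInf E (A.ext.phi i x) := by
  have key : ((phiL (A.phi i) (X.p i) (X.hp i).pos).comp (Pool.CUBE.D.exInf E)).comp
      (algebraMap E[X] (RatFunc E)) =
      ((Pool.CUBE.D.exInf E).comp (A.ext.phi i)).comp (algebraMap E[X] (RatFunc E)) := by
    refine Polynomial.ringHom_ext' ?_ ?_
    · ext1 c
      simp only [RingHom.comp_apply]
      rw [infC, phiL_C, phiC, infC]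
    · simp only [RingHom.comp_apply]
      rw [infX, phiL_single1, phiX, map_pow, infX, HahnSeries.single_pow]
      simp
  have key' : ∀ q : E[X], phiL (A.phi i) (X.p i) (X.hp i).pos
      (Pool.CUBE.D.exInf E (algebraMap E[X] (RatFunc E) q)) =
      Pool.CUBE.D.exInf E (A.ext.phi i (algebraMap E[X] (RatFunc E) q)) := fun q =>
    congrArg (fun f : E[X] →+* LaurentSeries E => f q) key
  obtain ⟨g, h, hh, rfl⟩ := IsFractionRing.div_surjective (A := E[X]) x
  rw [map_div₀, map_div₀, map_div₀, map_div₀, key', key']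

/-- The test groups for the expansion at infinity. -/
noncomputable def TG.inf (A : PF X E) (hA : A.Ax) :
    TG A.ext (LaurentSeries E) where
  ι := Pool.CUBE.D.exInf E
  φ i := phiL (A.phi i) (X.p i) (X.hp i).pos
  φι i x := inf_phi A i x
  Z i M L :=
    { carrier := {f | ∀ k : ℤ, k ≤ L → A.Dv i M (f.coeff k)}
      add_mem' := by
        intro f g hf hg k hk
        rw [HahnSeries.coeff_add]
        exact dv_add (hf k hk) (hg k hk)
      zero_mem' := by
        intro k _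
        rw [HahnSeries.coeff_zero]
        exact dv_zero
      neg_mem' := by
        intro f hf k hk
        rw [HahnSeries.coeff_neg]
        exact dv_neg (hf k hk) }
  anti i M M' L L' hM hL f hf k hk := dv_mono hM (hf k (hk.trans hL))
  pol i M L d x z hx hz k hk := by
    obtain ⟨g, hg, rfl⟩ := hx
    rw [Pool.CUBE.D.exInf_algebraMap]
    have h1 : Pool.CUBE.D.infP E g = ∑ j ∈ Finset.range (g.natDegree + 1),
        HahnSeries.single (-(j : ℤ)) (g.coeff j) := by
      change eval₂ _ _ g = _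
      rw [eval₂_eq_sum_range]
      refine Finset.sum_congr rfl fun j _ => ?_
      rw [HahnSeries.single_pow, HahnSeries.C_apply, HahnSeries.single_mul_single]
      simp
    rw [h1, Finset.sum_mul, HahnSeries.coeff_sum]
    refine dv_sum _ _ fun j hj => ?_
    rw [HahnSeries.coeff_single_mul]
    refine dv_mul (hA.pol_O i _ _ (hg.2 j)) (hz _ ?_)
    have h3 := hg.1
    rw [Finset.mem_range] at hj
    omega
  pw i M L z hz k hk := by
    have h1 : ((X.p i : LaurentSeries E) ^ M * z).coeff k = (X.p i : E) ^ M * z.coeff k := by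
      have h2 : (X.p i : LaurentSeries E) ^ M = HahnSeries.C ((X.p i : E) ^ M) := by
        rw [map_pow, map_natCast]
      rw [h2, HahnSeries.C_apply, HahnSeries.coeff_single_zero_mul]
    rw [h1]
    obtain ⟨y, hy, e⟩ := hz k hk
    exact ⟨y, hy, by rw [e, pow_zero, one_mul]⟩

/-- Fixed elements have integral truncated Frobenius images. -/
def TG.Rg {A : PF X E} {K : Type} [CommRing K] (T : TG A K) : Prop :=
  ∀ (x : K) (C : ℕ), X.Ev fun i => T.φ i x ∈ T.Z i 0 ((C : ℤ) * X.p i)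

theorem ev_O {A : PF X E} (hA : A.Ax) (x : E) : X.Ev fun i => x ∈ A.O i := by
  by_cases hx : x = 0
  · exact Idx.Ev.of_forall fun i => by rw [hx]; exact (A.O i).zero_mem
  · exact (hA.pf2 x hx).mono fun i h => h.2.1

theorem dv0 {A : PF X E} {i : X.I} {x : E} (hx : x ∈ A.O i) : A.Dv i 0 x :=
  ⟨x, hx, by simp⟩

theorem base_Rg (A : PF X E) (hA : A.Ax) : (TG.base A hA).Rg := fun x _ =>
  (ev_O hA x).mono fun i hx => dv0 (hA.phi_O i x hx)

theorem exists_low {K : Type} [CommRing K] (f : LaurentSeries K) :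
    ∃ a : ℕ, ∀ k : ℤ, k < -(a : ℤ) → f.coeff k = 0 := by
  by_cases hf : f = 0
  · exact ⟨0, fun k _ => by rw [hf, HahnSeries.coeff_zero]⟩
  · refine ⟨(-f.order).toNat, fun k hk => HahnSeries.coeff_eq_zero_of_lt_order ?_⟩
    have := Int.self_le_toNat (-f.order)
    omega

theorem inf_Rg (A : PF X E) (hA : A.Ax) : (TG.inf A hA).Rg := by
  intro f C
  obtain ⟨a, ha⟩ := exists_low f
  have h1 : X.Ev fun i => ∀ k ∈ Finset.Icc (-(a : ℤ)) (C : ℤ), f.coeff k ∈ A.O i :=
    Idx.Ev.allFinset _ fun k _ => ev_O hA _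
  refine h1.mono fun i h => ?_
  intro k hk
  have hpp : (0 : ℤ) < X.p i := by exact_mod_cast (X.hp i).pos
  change A.Dv i 0 ((phiL (A.phi i) (X.p i) (X.hp i).pos f).coeff k)
  by_cases hd : (X.p i : ℤ) ∣ k
  · obtain ⟨l, rfl⟩ := hd
    rw [phiL_coeff_mul]
    refine dv0 (hA.phi_O i _ ?_)
    by_cases hl : l < -(a : ℤ)
    · rw [ha l hl]
      exact (A.O i).zero_mem
    · refine h l (Finset.mem_Icc.2 ⟨not_lt.1 hl, ?_⟩)
      rw [mul_comm] at hk
      exact le_of_mul_le_mul_right hk hpp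
  · rw [phiL_coeff_not _ _ _ _ _ hd]
    exact dv_zero

theorem lau_Rg {A : PF X E} {K : Type} [CommRing K] (T : TG A K) (h : XPHStmt) (hT : T.Rg) :
    (T.lau h).Rg := by
  intro f C
  obtain ⟨a, ha⟩ := exists_low f
  have h1 : X.Ev fun i => ∀ k ∈ Finset.Icc (-(a : ℤ)) (C : ℤ),
      T.φ i (f.coeff k) ∈ T.Z i 0 ((C : ℤ) * X.p i) :=
    Idx.Ev.allFinset _ fun k _ => hT _ C
  refine h1.mono fun i h => ?_
  intro k hk
  have hpp : (0 : ℤ) < X.p i := by exact_mod_cast (X.hp i).pos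
  change (phiL (T.φ i) (X.p i) (X.hp i).pos f).coeff k ∈ _
  by_cases hd : (X.p i : ℤ) ∣ k
  · obtain ⟨l, rfl⟩ := hd
    rw [phiL_coeff_mul]
    by_cases hl : l < -(a : ℤ)
    · rw [ha l hl, map_zero]
      exact zero_mem _
    · refine h l (Finset.mem_Icc.2 ⟨not_lt.1 hl, ?_⟩)
      rw [mul_comm] at hk
      exact le_of_mul_le_mul_right hk hpp
  · rw [phiL_coeff_not _ _ _ _ _ hd]
    exact zero_mem _

/-! ### comparison with the definitions of block LIMIT -/

theorem mapL_eq {K : Type} [Field K] (κ : E →+* K) (f : LaurentSeries E) :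
    Pool.H93.Cube.cmapR κ f = mapL κ f := rfl

theorem phiL_eq {K : Type} [Field K] (κ : E →+* K) (p : ℕ) (hp : p ≠ 0) (f : LaurentSeries E) :
    Pool.H93.Cube.phiL κ p hp f = phiL κ p (Nat.pos_of_ne_zero hp) f := by
  ext k
  by_cases hk : (p : ℤ) ∣ k
  · obtain ⟨l, rfl⟩ := hk
    rw [phiL_coeff_mul, Pool.H93.Cube.phiL_coeff_mul]
  · rw [phiL_coeff_not _ _ _ _ _ hk, Pool.H93.Cube.phiL_coeff_not _ _ _ _ _ hk]

/-! ### truncation of Laurent series -/

theorem ex_X_zpow (k : ℤ) : ex E ((RatFunc.X : RatFunc E) ^ k) = HahnSeries.single k 1 := by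
  rw [map_zpow₀]
  have h1 : ex E (RatFunc.X : RatFunc E) = HahnSeries.single 1 1 := by
    rw [← RatFunc.algebraMap_X, ex_algebraMap]
    ext m
    rcases lt_or_ge m 0 with hm | hm
    · rw [exP_coeff_neg _ m hm, HahnSeries.coeff_single, if_neg (by omega)]
    · obtain ⟨a, rfl⟩ := Int.eq_ofNat_of_zero_le hm
      rw [exP_coeff_nat, Polynomial.coeff_X, HahnSeries.coeff_single]
      by_cases h : 1 = a
      · rw [if_pos h, if_pos (by exact_mod_cast h.symm)]
      · rw [if_neg h, if_neg (fun h' => h (by exact_mod_cast h'.symm))]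
  rw [h1]
  obtain ⟨n, rfl | rfl⟩ := k.eq_nat_or_neg
  · rw [zpow_natCast, HahnSeries.single_pow]
    simp
  · rw [zpow_neg, zpow_natCast, HahnSeries.single_pow]
    simp

theorem ex_algE (c : E) : ex E (algebraMap E (RatFunc E) c) = HahnSeries.C c := by
  have h1 : algebraMap E (RatFunc E) c = algebraMap E[X] (RatFunc E) (C c) := rfl
  rw [h1, ex_algebraMap]
  ext m
  rcases lt_or_ge m 0 with hm | hm
  · rw [exP_coeff_neg _ m hm, HahnSeries.C_apply, HahnSeries.coeff_single, if_neg (by omega)]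
  · obtain ⟨a, rfl⟩ := Int.eq_ofNat_of_zero_le hm
    rw [exP_coeff_nat, Polynomial.coeff_C, HahnSeries.C_apply, HahnSeries.coeff_single]
    by_cases h : a = 0
    · rw [if_pos h, if_pos (by exact_mod_cast h)]
    · rw [if_neg h, if_neg (fun h' => h (by exact_mod_cast h'))]

/-- truncation of a Laurent series, as a rational function -/
noncomputable def trunc (f : LaurentSeries E) (a b : ℤ) : RatFunc E :=
  ∑ k ∈ Finset.Icc a b, algebraMap E (RatFunc E) (f.coeff k) * RatFunc.X ^ k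

theorem trunc_coeff (f : LaurentSeries E) (a b k : ℤ) :
    (ex E (trunc f a b)).coeff k = if k ∈ Finset.Icc a b then f.coeff k else 0 := by
  classical
  rw [trunc, map_sum, HahnSeries.coeff_sum]
  have h1 : ∀ j ∈ Finset.Icc a b, (ex E (algebraMap E (RatFunc E) (f.coeff j) *
      RatFunc.X ^ j)).coeff k = if k = j then f.coeff j else 0 := by
    intro j _
    rw [map_mul, ex_algE, ex_X_zpow, HahnSeries.C_apply, HahnSeries.single_mul_single, zero_add,
      mul_one, HahnSeries.coeff_single]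
    split_ifs <;> rfl
  rw [Finset.sum_congr rfl h1]
  by_cases hk : k ∈ Finset.Icc a b
  · rw [if_pos hk, Finset.sum_eq_single_of_mem k hk]
    · rw [if_pos rfl]
    · intro j _ hj
      rw [if_neg (Ne.symm hj)]
  · rw [if_neg hk]
    refine Finset.sum_eq_zero fun j hj => ?_
    rw [if_neg]
    rintro rfl
    exact hk hj

/-- **Lemma FUN.** Multiplied compatibility of a functional passes through the limit theorem. -/
theorem funlim (A : PF X E) (hA : A.Ax) (hE : A.ext.Ax) (hX : XPHStmt)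
    {K : Type} [CommRing K] (T : TG A K) (hT : T.Rg)
    {m u : Type} [Fintype m] [Fintype u] [DecidableEq u]
    (Z Z' : Matrix m u (LaurentSeries E)) (hZZ : Z'.transpose * Z = 1)
    (x : u → K) (δ : m → LaurentSeries K)
    (hδ : ∀ a, δ a = ∑ b, mapL T.ι (Z' a b) * HahnSeries.C (x b)) :
    ∃ KK : ℤ, ∀ C1 C1' : ℕ, ∃ C2 : ℕ, ∀ C3 : ℕ, X.Ev fun i => ∀ (n M : ℕ) (L : ℤ),
      ((C2 * X.p i : ℕ) : ℤ) ≤ L → L ≤ (C3 : ℤ) * X.p i →
      ∀ (Ph : Matrix m m (RatFunc E)) (PhH : Matrix u u E),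
      MC (T.lau hX) i n M L (C1 * X.p i) δ Ph → (∀ a b, PhH a b ∈ A.t i (C1' * X.p i)) →
      Pool.H93.Cube.CongT (A.O i) (X.p i) M KK
        (Ph.map (ex E) * Z'.map (Pool.H93.Cube.phiL (A.phi i) (X.p i) (X.hp i).ne_zero))
        (Z' * Pool.H93.Cube.cM PhH) →
      MC T i n M (L - ((C2 * X.p i : ℕ) : ℤ)) (C2 * X.p i) x PhH := by
  classical
  -- bounds
  obtain ⟨aZ, haZ⟩ : ∃ a : ℕ, ∀ b v (k : ℤ), k < -(a : ℤ) → (Z' b v).coeff k = 0 := by
    choose a ha using fun (b : m) (v : u) => exists_low (Z' b v)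
    refine ⟨∑ b, ∑ v, a b v, fun b v k hk => ha b v k ?_⟩
    have h1 : a b v ≤ ∑ b, ∑ v, a b v :=
      (Finset.single_le_sum (f := fun v => a b v) (fun _ _ => Nat.zero_le _)
        (Finset.mem_univ v)).trans
      (Finset.single_le_sum (f := fun b => ∑ v, a b v) (fun _ _ => Nat.zero_le _)
        (Finset.mem_univ b))
    omega
  obtain ⟨aR, haR0⟩ : ∃ a : ℕ, ∀ b v (k : ℤ), k < -(a : ℤ) → (Z b v).coeff k = 0 := by
    choose a ha using fun (b : m) (v : u) => exists_low (Z b v)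
    refine ⟨∑ b, ∑ v, a b v, fun b v k hk => ha b v k ?_⟩
    have h1 : a b v ≤ ∑ b, ∑ v, a b v :=
      (Finset.single_le_sum (f := fun v => a b v) (fun _ _ => Nat.zero_le _)
        (Finset.mem_univ v)).trans
      (Finset.single_le_sum (f := fun b => ∑ v, a b v) (fun _ _ => Nat.zero_le _)
        (Finset.mem_univ b))
    omega
  let R : Matrix u m (RatFunc E) := fun v b => trunc (Z b v) (-(aR : ℤ)) aZ
  have hRc : ∀ v b k, (ex E (R v b)).coeff k =
      if k ∈ Finset.Icc (-(aR : ℤ)) (aZ : ℤ) then (Z b v).coeff k else 0 :=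
    fun v b k => trunc_coeff _ _ _ _
  have haR : ∀ v b (k : ℤ), k < -(aR : ℤ) → (ex E (R v b)).coeff k = 0 := by
    intro v b k hk
    rw [hRc, if_neg]
    rw [Finset.mem_Icc]
    omega
  have hR : ∀ v w (k : ℤ), k ≤ 0 →
      (∑ b, ex E (R v b) * Z' b w).coeff k = if k = 0 ∧ v = w then 1 else 0 := by
    intro v w k hk
    have h1 : ∑ b, Z' b w * Z b v = if w = v then 1 else 0 := by
      have := congrFun (congrFun hZZ w) v
      rw [Matrix.mul_apply, Matrix.one_apply] at this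
      exact this
    have h2 : ∀ b, (ex E (R v b) * Z' b w).coeff k = (Z' b w * Z b v).coeff k := by
      intro b
      rw [mul_comm (ex E (R v b)), Pool.H93.Cube.coeff_mul_Icc (haZ b w) (haR v b),
        Pool.H93.Cube.coeff_mul_Icc (haZ b w) (haR0 b v)]
      refine Finset.sum_congr rfl fun j hj => ?_
      rw [Finset.mem_Icc] at hj
      rw [hRc, if_pos]
      rw [Finset.mem_Icc]
      omega
    rw [HahnSeries.coeff_sum, Finset.sum_congr rfl fun b _ => h2 b, ← HahnSeries.coeff_sum, h1]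
    by_cases hvw : v = w
    · subst hvw
      rw [if_pos rfl, HahnSeries.coeff_one]
      by_cases hk0 : k = 0
      · rw [if_pos hk0, if_pos ⟨hk0, rfl⟩]
      · rw [if_neg hk0, if_neg (fun h => hk0 h.1)]
    · rw [if_neg (Ne.symm hvw), HahnSeries.coeff_zero, if_neg (fun h => hvw h.2)]
  refine ⟨(aR : ℤ) + 1, fun C1 C1' => ?_⟩
  -- denominators of R
  obtain ⟨dR, hdR⟩ := cdf hE (Finset.univ : Finset (u × m)) fun c => R c.1 c.2
  -- denominators of the coefficients of Z'
  obtain ⟨d0, hd0⟩ := cdf hA ((Finset.univ : Finset (m × u)) ×ˢ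
    Finset.Icc (-(aZ : ℤ)) ((C1 + 1 : ℕ) : ℤ)) fun c => (Z' c.1.1 c.1.2).coeff c.2
  -- constants
  let q := (Finset.univ : Finset (u × u)).card
  let C2 := (dR + dR) + d0 + C1 + q * C1'
  refine ⟨C2, fun C3 => ?_⟩
  have hxx : X.Ev fun i => ∀ v, T.φ i (x v) ∈ T.Z i 0 ((C3 : ℤ) * X.p i) :=
    Idx.Ev.all fun v => hT (x v) C3
  refine (((hdR.and hd0).and hxx).and (Idx.Ev.large dR)).mono ?_
  rintro i ⟨⟨⟨⟨r, hr, hrR⟩, ⟨z0, hz0, hz0Z⟩⟩, hx⟩, hpl⟩ n M L hL2 hL3 Ph PhH hMC hPhH hcong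
  obtain ⟨hH, hhH, hHP⟩ := cdt hA i (C1' * X.p i) (Finset.univ : Finset (u × u))
    (fun c => PhH c.1 c.2) (fun c _ => hPhH c.1 c.2)
  have h := fun0 A hA hE hX T i Z' aZ haZ R aR haR hR dR r hr
    (fun v b => hrR (v, b) (Finset.mem_univ _)) (C1 + 1) (X.p i * d0) (A.phi i z0)
    (hA.den_phi i _ _ hz0)
    (fun b v j hj hj' => by
      rw [← map_mul]
      exact hA.pol_phi i _ _ (hz0Z ((b, v), j) (by
        rw [Finset.mem_product, Finset.mem_Icc]
        exact ⟨Finset.mem_univ _, hj, hj'⟩)))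
    Ph PhH n M L (C1 * X.p i) δ hMC (by
      have h5 : C1 * X.p i + dR < C1 * X.p i + X.p i := by omega
      have h6 : C1 * X.p i + X.p i ≤ X.p i * (C1 + 1 + 1) := by
        rw [mul_add, mul_add, mul_one, mul_comm C1]
        omega
      exact lt_of_lt_of_le h5 h6)
    (q * (C1' * X.p i)) hH hhH (fun v w => hHP (v, w) (Finset.mem_univ _))
    (fun b v k hk => by
      have h7 := hcong b v k (by omega)
      rw [Matrix.mul_apply, Matrix.mul_apply] at h7
      have e1 : ∑ c, ex E (Ph b c) * phiL (A.phi i) (X.p i) (X.hp i).pos (Z' c v) =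
          ∑ c, (Ph.map (ex E)) b c *
          (Z'.map (Pool.H93.Cube.phiL (A.phi i) (X.p i) (X.hp i).ne_zero)) c v := by
        refine Finset.sum_congr rfl fun c _ => ?_
        rw [Matrix.map_apply, Matrix.map_apply, phiL_eq]
      have e2 : ∑ w, Z' b w * HahnSeries.C (PhH w v) =
          ∑ w, Z' b w * (Pool.H93.Cube.cM PhH) w v := rfl
      rw [e1, e2, HahnSeries.coeff_sub]
      exact h7)
    x hδ (fun v => T.anti i _ _ _ _ le_rfl hL3 (hx v)) (by
      refine le_trans ?_ hL2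
      push_cast
      have h9 : (dR : ℤ) ≤ dR * X.p i := by
        have : (1 : ℤ) ≤ X.p i := by exact_mod_cast (X.hp i).one_lt.le
        nlinarith
      have h10 : (0 : ℤ) ≤ (d0 : ℤ) * X.p i := by positivity
      have h11 : (0 : ℤ) ≤ ((q * C1' : ℕ) : ℤ) * X.p i := by positivity
      have h12 : ((C2 : ℕ) : ℤ) * X.p i = dR * X.p i + dR * X.p i + d0 * X.p i + C1 * X.p i +
          ((q * C1' : ℕ) : ℤ) * X.p i := by
        change (((dR + dR) + d0 + C1 + q * C1' : ℕ) : ℤ) * X.p i = _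
        push_cast
        ring
      rw [h12]
      linarith)
  -- monotonicity
  obtain ⟨h0, hh0, hh0P, hcomp⟩ := h
  have hle : dR + (X.p i * d0 + (C1 * X.p i + dR) + q * (C1' * X.p i)) ≤ C2 * X.p i := by
    have h9 : dR ≤ dR * X.p i := Nat.le_mul_of_pos_right _ (X.hp i).pos
    have h12 : C2 * X.p i = dR * X.p i + dR * X.p i + d0 * X.p i + C1 * X.p i +
        q * (C1' * X.p i) := by
      change ((dR + dR) + d0 + C1 + q * C1') * X.p i = _
      ring
    rw [h12, mul_comm (X.p i) d0]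
    omega
  refine ⟨h0, hA.den_mono i _ _ hle hh0, fun b c => hA.pol_mono i _ _ hle (hh0P b c),
    fun b => T.anti i _ _ _ _ le_rfl ?_ (hcomp b)⟩
  have : (((dR + (X.p i * d0 + (C1 * X.p i + dR) + q * (C1' * X.p i)) : ℕ)) : ℤ) ≤
    ((C2 * X.p i : ℕ) : ℤ) := by exact_mod_cast hle
  omega

end Pool.CM.FUN
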