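import Pool.Agent.H91.CUBE.FunDefs

set_option autoImplicit false

/-!
# MP_47888e_al, cube project, lemma FUN: functionals through the limit theorem

`fun0` : at one place; `funlim` : for almost all primes.
-/

open Polynomial

namespace Pool.CM.FUN

variable {X : Idx} {E : Type} [Field E]

/-! ### small facts about PF fields -/

theorem O_nat {A : PF X E} (i : X.I) (m : ℕ) : (m : E) ∈ A.O i := natCast_mem _ _

theorem dv_mul {A : PF X E} {i : X.I} {M : ℕ} {x y : E} (hx : x ∈ A.O i) (hy : A.Dv i M y) :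
    A.Dv i M (x * y) := by
  obtain ⟨z, hz, rfl⟩ := hy
  exact ⟨x * z, (A.O i).mul_mem hx hz, by ring⟩

theorem dv_sum {A : PF X E} {i : X.I} {M : ℕ} {α : Type*} (s : Finset α) (f : α → E)
    (h : ∀ a ∈ s, A.Dv i M (f a)) : A.Dv i M (∑ a ∈ s, f a) := by
  classical
  induction s using Finset.induction_on with
  | empty => exact ⟨0, (A.O i).zero_mem, by simp⟩
  | insert a s ha ih =>
    obtain ⟨y, hy, e⟩ := h a (Finset.mem_insert_self _ _)
    obtain ⟨z, hz, e'⟩ := ih fun b hb => h b (Finset.mem_insert_of_mem hb)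
    exact ⟨y + z, (A.O i).add_mem hy hz, by rw [Finset.sum_insert ha, e, e']; ring⟩

theorem pol_of_dv {A : PF X E} (hA : A.Ax) {i : X.I} {d M : ℕ} {x : E} (hx : x ∈ A.O i)
    (h : (X.p i : E) ^ M * x ∈ A.pol i d) : x ∈ A.pol i d := by
  induction M with
  | zero => simpa using h
  | succ M ih =>
    refine ih (hA.pol_sat i d _ ((A.O i).mul_mem ((A.O i).pow_mem (O_nat i _) _) hx) ?_)
    rw [← mul_assoc, ← pow_succ']
    exact h

theorem den_ne {A : PF X E} (hA : A.Ax) {i : X.I} {d : ℕ} {x : E} (hx : x ∈ A.den i d) :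
    x ≠ 0 := (hA.den_un i d x hx).1

/-- common denominators of finitely many elements of `t i d` -/
theorem cdt {A : PF X E} (hA : A.Ax) (i : X.I) (d : ℕ) {α : Type*} [DecidableEq α]
    (s : Finset α) (x : α → E) (hx : ∀ a ∈ s, x a ∈ A.t i d) :
    ∃ h ∈ A.den i (s.card * d), ∀ a ∈ s, h * x a ∈ A.pol i (s.card * d) := by
  induction s using Finset.induction_on with
  | empty => exact ⟨1, by simpa using hA.den_one i, by simp⟩
  | insert a s ha ih =>
    obtain ⟨h, hh, hs⟩ := ih fun b hb => hx b (Finset.mem_insert_of_mem hb)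
    obtain ⟨g, hg, h', hh', e⟩ := hx a (Finset.mem_insert_self _ _)
    rw [Finset.card_insert_of_notMem ha, add_mul, one_mul]
    refine ⟨h * h', hA.den_mul i _ _ _ _ hh hh', fun b hb => ?_⟩
    rcases Finset.mem_insert.1 hb with rfl | hb
    · have : h * h' * x b = h * g := by rw [← e]; ring
      rw [this]
      exact hA.pol_mul i _ _ _ _ (hA.den_pol i _ _ hh) hg
    · have : h * h' * x b = (h * x b) * h' := by ring
      rw [this]
      exact hA.pol_mul i _ _ _ _ (hs b hb) (hA.den_pol i _ _ hh')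

/-- common denominators of finitely many fixed elements -/
theorem cdf {A : PF X E} (hA : A.Ax) {α : Type*} [DecidableEq α]
    (s : Finset α) (x : α → E) :
    ∃ d : ℕ, X.Ev fun i => ∃ h ∈ A.den i d, ∀ a ∈ s, h * x a ∈ A.pol i d := by
  induction s using Finset.induction_on with
  | empty => exact ⟨0, Idx.Ev.of_forall fun i => ⟨1, hA.den_one i, by simp⟩⟩
  | insert a s ha ih =>
    obtain ⟨d, hd⟩ := ih
    by_cases hxa : x a = 0
    · refine ⟨d, hd.mono ?_⟩
      rintro i ⟨h, hh, hs⟩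
      refine ⟨h, hh, fun b hb => ?_⟩
      rcases Finset.mem_insert.1 hb with rfl | hb
      · rw [hxa, mul_zero]
        exact zero_mem _
      · exact hs b hb
    · obtain ⟨d', hd'⟩ := hA.fixed (x a) hxa
      refine ⟨d + d', (hd.and hd').mono ?_⟩
      rintro i ⟨⟨h, hh, hs⟩, g, hg, h', hh', e⟩
      refine ⟨h * h', hA.den_mul i _ _ _ _ hh hh', fun b hb => ?_⟩
      rcases Finset.mem_insert.1 hb with rfl | hb
      · have : h * h' * x b = h * g := by rw [← e]; ring
        rw [this]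
        exact hA.pol_mul i _ _ _ _ (hA.den_pol i _ _ hh) (hA.den_pol i _ _ hg)
      · have : h * h' * x b = (h * x b) * h' := by ring
        rw [this]
        exact hA.pol_mul i _ _ _ _ (hs b hb) (hA.den_pol i _ _ hh')

theorem mapL_id_mul (g : E[X]) (f : LaurentSeries E) (k : ℤ) : (exP E g * f).coeff k =
      ∑ j ∈ Finset.range (g.natDegree + 1), g.coeff j * f.coeff (k - j) := by
  have h := coeff_exP_mul (RingHom.id E) g f k
  have h2 : mapL (RingHom.id E) (exP E g) = exP E g := by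
    ext m
    rfl
  rw [h2] at h
  exact h

/-- the coefficient `a` of `g W` if `g` has order `a` and `W = 1 + O(x)` -/
theorem coeff_low (g : E[X]) (a : ℕ) (hg : ∀ m < a, g.coeff m = 0) (hga : g.coeff a ≠ 0)
    (W : LaurentSeries E) (hW : ∀ k : ℤ, k < 0 → W.coeff k = 0) :
    (exP E g * W).coeff a = g.coeff a * W.coeff 0 := by
  rw [mapL_id_mul, Finset.sum_eq_single_of_mem a]
  · rw [sub_self]
  · rw [Finset.mem_range]
    exact Nat.lt_succ_of_le (Polynomial.le_natDegree_of_ne_zero hga)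
  · intro b _ hb
    rcases lt_or_gt_of_ne hb with h | h
    · rw [hg b h, zero_mul]
    · rw [hW _ (by omega), mul_zero]

/-- **Lemma FUN at one place.** -/
theorem fun0 (A : PF X E) (hA : A.Ax) (hE : A.ext.Ax) (hX : XPHStmt)
    {K : Type} [CommRing K] (T : TG A K) (i : X.I)
    {N Nu : Type} [Fintype N] [Fintype Nu] [DecidableEq Nu]
    (Z' : Matrix N Nu (LaurentSeries E)) (aZ : ℕ)
    (haZ : ∀ b v (k : ℤ), k < -(aZ : ℤ) → (Z' b v).coeff k = 0)
    (R : Matrix Nu N (RatFunc E)) (aR : ℕ)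
    (haR : ∀ u b (k : ℤ), k < -(aR : ℤ) → (ex E (R u b)).coeff k = 0)
    (hR : ∀ u v (k : ℤ), k ≤ 0 →
      (∑ b, ex E (R u b) * Z' b v).coeff k = if k = 0 ∧ u = v then 1 else 0)
    (dR : ℕ) (r : RatFunc E) (hr : r ∈ A.ext.den i dR)
    (hrR : ∀ u b, r * R u b ∈ A.ext.pol i dR)
    (J0 dZ : ℕ) (hZ : E) (hhZ : hZ ∈ A.den i dZ)
    (hZZ : ∀ b v (j : ℤ), -(aZ : ℤ) ≤ j → j ≤ J0 →
      hZ * A.phi i ((Z' b v).coeff j) ∈ A.pol i dZ)
    (Ph : Matrix N N (RatFunc E)) (PhH : Matrix Nu Nu E)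
    (n M : ℕ) (L : ℤ) (d1 : ℕ) (δ : N → LaurentSeries K) (hMC : MC (T.lau hX) i n M L d1 δ Ph)
    (hJ0 : d1 + dR < X.p i * (J0 + 1))
    (d2 : ℕ) (hH : E) (hhH : hH ∈ A.den i d2) (hHP : ∀ u v, hH * PhH u v ∈ A.pol i d2)
    (htr : ∀ b v (k : ℤ), k ≤ aR → A.Dv i M
      ((∑ c, ex E (Ph b c) * phiL (A.phi i) (X.p i) (X.hp i).pos (Z' c v) -
        ∑ w, Z' b w * HahnSeries.C (PhH w v)).coeff k))
    (x : Nu → K) (hδ : ∀ b, δ b = ∑ v, mapL T.ι (Z' b v) * HahnSeries.C (x v))
    (hx : ∀ v, T.φ i (x v) ∈ T.Z i 0 L) (hL : ((d1 + dR + dR : ℕ) : ℤ) ≤ L) :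
    MC T i n M (L - ((dR + (dZ + (d1 + dR) + d2) : ℕ) : ℤ)) (dR + (dZ + (d1 + dR) + d2)) x
      PhH := by
  classical
  obtain ⟨h1, hh1, hh1P, hcomp⟩ := hMC
  -- the polynomial `g' = h1 * r`
  obtain ⟨g', hg'P, ⟨a, hga, hlow⟩, hg'⟩ :
      h1 * r ∈ A.ext.den i (d1 + dR) := hE.den_mul i _ _ _ _ hh1 hr
  have hga0 : g'.coeff a ≠ 0 := den_ne hA hga
  have ha : a ≤ d1 + dR := (Polynomial.le_natDegree_of_ne_zero hga0).trans hg'P.1
  -- the polynomials `q u c`
  have hq : ∀ u c, ∃ G : E[X], A.Pd i (dR + d1) G ∧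
      ∑ b, (r * R u b) * (h1 * Ph b c) = algebraMap E[X] (RatFunc E) G := by
    intro u c
    have h3 : ∑ b, (r * R u b) * (h1 * Ph b c) ∈ A.ext.pol i (dR + d1) :=
      AddSubgroup.sum_mem _ fun b _ => hE.pol_mul i _ _ _ _ (hrR u b) (hh1P b c)
    exact h3
  choose G hGP hG using hq
  have hHR : ∀ u b, ∃ G : E[X], A.Pd i (d1 + dR) G ∧
      h1 * r * R u b = algebraMap E[X] (RatFunc E) G := by
    intro u b
    have h3 : h1 * (r * R u b) ∈ A.ext.pol i (d1 + dR) :=
      hE.pol_mul i _ _ _ _ (hE.den_pol i _ _ hh1) (hrR u b)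
    rw [← mul_assoc] at h3
    exact h3
  choose G2 hG2P hG2 using hHR
  -- frobenius of Z'
  let fZ : N → Nu → LaurentSeries E := fun c v => phiL (A.phi i) (X.p i) (X.hp i).pos (Z' c v)
  let W : Nu → Nu → LaurentSeries E := fun u v => ∑ b, ex E (R u b) * Z' b v
  have hW : ∀ u v (k : ℤ), k < 0 → (W u v).coeff k = 0 := by
    intro u v k hk
    change (∑ b, ex E (R u b) * Z' b v).coeff k = 0
    rw [hR u v k hk.le, if_neg]
    rintro ⟨rfl, _⟩
    exact lt_irrefl _ hk
  have hW0 : ∀ u v, (W u v).coeff 0 = if u = v then 1 else 0 := by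
    intro u v
    change (∑ b, ex E (R u b) * Z' b v).coeff 0 = _
    rw [hR u v 0 le_rfl]
    simp
  let gm : Nu → Nu → E := fun u v => (∑ c, exP E (G u c) * fZ c v).coeff a
  have hpp : (0 : ℤ) < X.p i := by exact_mod_cast (X.hp i).pos
  -- Claim A
  have hAA : ∀ u v, hZ * gm u v ∈ A.pol i (dR + d1 + dZ) := by
    intro u v
    change hZ * (∑ c, exP E (G u c) * fZ c v).coeff a ∈ _
    rw [HahnSeries.coeff_sum, Finset.mul_sum]
    refine AddSubgroup.sum_mem _ fun c _ => ?_
    rw [mapL_id_mul, Finset.mul_sum]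
    refine AddSubgroup.sum_mem _ fun j _ => ?_
    have h4 : hZ * ((G u c).coeff j * (fZ c v).coeff ((a : ℤ) - j)) =
        (G u c).coeff j * (hZ * (fZ c v).coeff ((a : ℤ) - j)) := by ring
    rw [h4]
    refine hA.pol_mul i _ _ _ _ ((hGP u c).2 j) ?_
    by_cases hk : (X.p i : ℤ) ∣ (a : ℤ) - j
    · obtain ⟨l, hl⟩ := hk
      have h5 : (fZ c v).coeff ((a : ℤ) - j) = A.phi i ((Z' c v).coeff l) := by
        rw [hl]
        exact phiL_coeff_mul _ _ _ _ _
      rw [h5]
      by_cases hla : l < -(aZ : ℤ)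
      · rw [haZ c v l hla, map_zero, mul_zero]
        exact zero_mem _
      · refine hZZ c v l (not_lt.1 hla) ?_
        by_contra hcon
        rw [not_le] at hcon
        have h6 : (X.p i : ℤ) * (J0 + 1) ≤ X.p i * l :=
          mul_le_mul_of_nonneg_left (by omega) hpp.le
        have h7 : (((d1 + dR : ℕ) : ℤ)) < (X.p i : ℤ) * (J0 + 1) := by exact_mod_cast hJ0
        have h8 : ((a : ℕ) : ℤ) ≤ ((d1 + dR : ℕ) : ℤ) := by exact_mod_cast ha
        have h9 : (0 : ℤ) ≤ j := Int.natCast_nonneg j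
        omega
    · have h5 : (fZ c v).coeff ((a : ℤ) - j) = 0 := phiL_coeff_not _ _ _ _ _ hk
      rw [h5, mul_zero]
      exact zero_mem _
  -- the expansion of `h1 r R`
  have hG2ex : ∀ u b, exP E (G2 u b) = exP E g' * ex E (R u b) := by
    intro u b
    rw [← ex_algebraMap, ← hG2 u b, map_mul, hg', ex_algebraMap]
  have hGex : ∀ u c, exP E (G u c) = ∑ b, exP E (G2 u b) * ex E (Ph b c) := by
    intro u c
    rw [← ex_algebraMap, ← hG u c, map_sum]
    refine Finset.sum_congr rfl fun b _ => ?_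
    rw [← ex_algebraMap, ← hG2 u b, ← map_mul]
    congr 1
    ring
  -- Claim B
  have hBB : ∀ u v, A.Dv i M (g'.coeff a * PhH u v - gm u v) := by
    intro u v
    let Θ : N → LaurentSeries E := fun b => ∑ c, ex E (Ph b c) * fZ c v -
      ∑ w, Z' b w * HahnSeries.C (PhH w v)
    have h10 : ∑ b, exP E (G2 u b) * Θ b =
        ∑ c, exP E (G u c) * fZ c v - ∑ w, (exP E g' * W u w) * HahnSeries.C (PhH w v) := by
      have e1 : ∑ b, exP E (G2 u b) * ∑ c, ex E (Ph b c) * fZ c v =
          ∑ c, exP E (G u c) * fZ c v := by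
        simp_rw [hGex u, Finset.mul_sum, Finset.sum_mul]
        rw [Finset.sum_comm]
        refine Finset.sum_congr rfl fun c _ => Finset.sum_congr rfl fun b _ => ?_
        ring
      have e2 : ∑ b, exP E (G2 u b) * ∑ w, Z' b w * HahnSeries.C (PhH w v) =
          ∑ w, (exP E g' * W u w) * HahnSeries.C (PhH w v) := by
        simp_rw [hG2ex u, Finset.mul_sum]
        rw [Finset.sum_comm]
        refine Finset.sum_congr rfl fun w _ => ?_
        change _ = (exP E g' * ∑ b, ex E (R u b) * Z' b w) * HahnSeries.C (PhH w v)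
        rw [Finset.mul_sum, Finset.sum_mul]
        refine Finset.sum_congr rfl fun b _ => ?_
        ring
      rw [← e1, ← e2, ← Finset.sum_sub_distrib]
      refine Finset.sum_congr rfl fun b _ => ?_
      change exP E (G2 u b) * (∑ c, ex E (Ph b c) * fZ c v -
        ∑ w, Z' b w * HahnSeries.C (PhH w v)) = _
      rw [mul_sub]
    have h11 : (∑ b, exP E (G2 u b) * Θ b).coeff a = gm u v - g'.coeff a * PhH u v := by
      rw [h10, HahnSeries.coeff_sub]
      congr 1
      rw [HahnSeries.coeff_sum, Finset.sum_eq_single_of_mem u (Finset.mem_univ _)]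
      · rw [HahnSeries.C_apply, HahnSeries.coeff_mul_single_zero,
          coeff_low g' a hlow hga0 _ (hW u u), hW0, if_pos rfl, mul_one]
      · intro w _ hw
        rw [HahnSeries.C_apply, HahnSeries.coeff_mul_single_zero,
          coeff_low g' a hlow hga0 _ (hW u w), hW0, if_neg (Ne.symm hw), mul_zero, zero_mul]
    have h12 : A.Dv i M ((∑ b, exP E (G2 u b) * Θ b).coeff a) := by
      rw [HahnSeries.coeff_sum]
      refine dv_sum _ _ fun b _ => ?_
      rw [mapL_id_mul]
      refine dv_sum _ _ fun j _ => ?_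
      by_cases hj : (a : ℤ) - j ≤ aR
      · exact dv_mul (hA.pol_O i _ _ ((hG2P u b).2 j)) (htr b v _ hj)
      · have h13 : (G2 u b).coeff j = 0 := by
          rw [← exP_coeff_nat, hG2ex u b, mapL_id_mul]
          refine Finset.sum_eq_zero fun l _ => ?_
          by_cases hl : l < a
          · rw [hlow l hl, zero_mul]
          · rw [haR u b _ (by omega), mul_zero]
        rw [h13, zero_mul]
        exact ⟨0, (A.O i).zero_mem, by simp⟩
    rw [h11] at h12
    obtain ⟨y, hy, e⟩ := h12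
    exact ⟨-y, (A.O i).neg_mem hy, by rw [mul_neg, ← e]; ring⟩
  -- Claim C
  have hCC : ∀ u, (∑ v, T.ι (gm u v) * T.φ i (x v) -
      (X.p i : K) ^ n * (T.ι (g'.coeff a) * x u)) ∈ T.Z i M (L - dR) := by
    intro u
    let TL := T.lau hX
    let Xb : N → LaurentSeries K := fun b =>
      ∑ c, TL.φ i (δ c) * TL.ι (Ph b c) - (X.p i : LaurentSeries K) ^ n * δ b
    have h20 : ∑ b, TL.ι (r * R u b) * (TL.ι h1 * Xb b) ∈ TL.Z i M (L - dR) :=
      AddSubgroup.sum_mem _ fun b _ => TL.pol i M L dR _ _ (hrR u b) (hcomp b)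
    have h21 := h20 (a : ℤ) (by
      have : ((a : ℕ) : ℤ) ≤ ((d1 + dR : ℕ) : ℤ) := by exact_mod_cast ha
      push_cast at this hL ⊢
      omega)
    have hφδ : ∀ c, TL.φ i (δ c) =
        ∑ v, mapL T.ι (fZ c v) * HahnSeries.C (T.φ i (x v)) := by
      intro c
      change phiL (T.φ i) (X.p i) (X.hp i).pos (δ c) = _
      rw [hδ c, map_sum]
      refine Finset.sum_congr rfl fun v _ => ?_
      rw [map_mul, phiL_C, phiL_mapL (T.φ i) T.ι (A.phi i) (T.φι i)]
    have e3 : ∑ b, TL.ι (r * R u b) * (TL.ι h1 * Xb b) =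
        ∑ v, mapL T.ι (∑ c, exP E (G u c) * fZ c v) * HahnSeries.C (T.φ i (x v)) -
        (X.p i : LaurentSeries K) ^ n *
          ∑ v, mapL T.ι (exP E g' * W u v) * HahnSeries.C (x v) := by
      have hιι : ∀ y : RatFunc E, TL.ι y = mapL T.ι (ex E y) := fun y => rfl
      have e4 : ∀ b, TL.ι (r * R u b) * (TL.ι h1 * Xb b) =
          mapL T.ι (exP E (G2 u b)) * Xb b := by
        intro b
        rw [← mul_assoc, ← map_mul, hιι, ← ex_algebraMap, ← hG2 u b]
        congr 3
        ring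
      simp_rw [e4]
      have e5 : ∑ b, mapL T.ι (exP E (G2 u b)) * ∑ c, TL.φ i (δ c) * TL.ι (Ph b c) =
          ∑ v, mapL T.ι (∑ c, exP E (G u c) * fZ c v) * HahnSeries.C (T.φ i (x v)) := by
        simp_rw [hφδ, hGex u, map_sum, map_mul, hιι, map_sum, map_mul, Finset.mul_sum,
          Finset.sum_mul, Finset.mul_sum]
        rw [Finset.sum_comm' (t' := Finset.univ) (s' := fun _ => Finset.univ) (by simp)]
        calc _ = ∑ c, ∑ v, ∑ b, mapL T.ι (exP E (G2 u b)) *
              (mapL T.ι (fZ c v) * HahnSeries.C (T.φ i (x v)) * mapL T.ι (ex E (Ph b c))) := by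
              refine Finset.sum_congr rfl fun c _ => ?_
              rw [Finset.sum_comm]
          _ = ∑ v, ∑ c, ∑ b, mapL T.ι (exP E (G2 u b)) *
              (mapL T.ι (fZ c v) * HahnSeries.C (T.φ i (x v)) * mapL T.ι (ex E (Ph b c))) := by
              rw [Finset.sum_comm]
          _ = _ := by
              refine Finset.sum_congr rfl fun v _ => Finset.sum_congr rfl fun c _ =>
                Finset.sum_congr rfl fun b _ => ?_
              ring
      have e6 : ∑ b, mapL T.ι (exP E (G2 u b)) * ((X.p i : LaurentSeries K) ^ n * δ b) =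
          (X.p i : LaurentSeries K) ^ n *
          ∑ v, mapL T.ι (exP E g' * W u v) * HahnSeries.C (x v) := by
        rw [Finset.mul_sum]
        have e7 : ∀ v, mapL T.ι (exP E g' * W u v) =
            ∑ b, mapL T.ι (exP E (G2 u b)) * mapL T.ι (Z' b v) := by
          intro v
          change mapL T.ι (exP E g' * ∑ b, ex E (R u b) * Z' b v) = _
          rw [Finset.mul_sum, map_sum]
          refine Finset.sum_congr rfl fun b _ => ?_
          rw [hG2ex u b, ← map_mul, mul_assoc]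
        simp_rw [e7, hδ, Finset.mul_sum, Finset.sum_mul]
        rw [Finset.sum_comm]
        refine Finset.sum_congr rfl fun v _ => ?_
        rw [Finset.mul_sum]
        refine Finset.sum_congr rfl fun b _ => ?_
        ring
      rw [← e5, ← e6, ← Finset.sum_sub_distrib]
      refine Finset.sum_congr rfl fun b _ => ?_
      change mapL T.ι (exP E (G2 u b)) *
        (∑ c, TL.φ i (δ c) * TL.ι (Ph b c) - (X.p i : LaurentSeries K) ^ n * δ b) = _
      rw [mul_sub]
    rw [e3] at h21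
    have hpn : (X.p i : LaurentSeries K) ^ n = HahnSeries.C ((X.p i : K) ^ n) := by
      rw [map_pow, map_natCast]
    rw [HahnSeries.coeff_sub, hpn, HahnSeries.C_apply, HahnSeries.coeff_single_zero_mul,
      HahnSeries.coeff_sum, HahnSeries.coeff_sum] at h21
    have e8 : ∀ v, (mapL T.ι (∑ c, exP E (G u c) * fZ c v) *
        HahnSeries.C (T.φ i (x v))).coeff (a : ℤ) = T.ι (gm u v) * T.φ i (x v) := by
      intro v
      rw [HahnSeries.C_apply, HahnSeries.coeff_mul_single_zero, mapL_coeff]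
    have e9 : ∀ v, (mapL T.ι (exP E g' * W u v) * HahnSeries.C (x v)).coeff (a : ℤ) =
        if v = u then T.ι (g'.coeff a) * x u else 0 := by
      intro v
      rw [HahnSeries.C_apply, HahnSeries.coeff_mul_single_zero, mapL_coeff,
        coeff_low g' a hlow hga0 _ (hW u v), hW0]
      by_cases huv : v = u
      · subst huv
        rw [if_pos rfl, if_pos rfl, mul_one]
      · rw [if_neg (Ne.symm huv), if_neg huv, mul_zero, map_zero, zero_mul]
    simp_rw [e8, e9, Finset.sum_ite_eq', Finset.mem_univ, if_true] at h21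
    exact h21
  -- conclusion
  have hden : hH * (hZ * g'.coeff a) ∈ A.den i (d2 + (dZ + (d1 + dR))) :=
    hA.den_mul i _ _ _ _ hhH (hA.den_mul i _ _ _ _ hhZ hga)
  have hle : d2 + (dZ + (d1 + dR)) ≤ dR + (dZ + (d1 + dR) + d2) := by omega
  refine ⟨hH * (hZ * g'.coeff a), hA.den_mono i _ _ hle hden, ?_, ?_⟩
  · intro u v
    have e10 : hH * (hZ * g'.coeff a) * PhH u v = (hZ * g'.coeff a) * (hH * PhH u v) := by ring
    rw [e10]
    refine hA.pol_mono i _ _ ?_ (hA.pol_mul i _ _ _ _ (hA.den_pol i _ _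
      (hA.den_mul i _ _ _ _ hhZ hga)) (hHP u v))
    omega
  · intro u
    have e11 : T.ι (hH * (hZ * g'.coeff a)) *
        (∑ c, T.φ i (x c) * T.ι (PhH u c) - (X.p i : K) ^ n * x u) =
        ∑ v, T.ι (hH * (hZ * (g'.coeff a * PhH u v - gm u v))) * T.φ i (x v) +
        T.ι (hH * hZ) * (∑ v, T.ι (gm u v) * T.φ i (x v) -
          (X.p i : K) ^ n * (T.ι (g'.coeff a) * x u)) := by
      rw [mul_sub, mul_sub, Finset.mul_sum, Finset.mul_sum, add_sub, ← Finset.sum_add_distrib]
      congr 1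
      · refine Finset.sum_congr rfl fun v _ => ?_
        simp only [map_mul, map_sub]
        ring
      · simp only [map_mul]
        ring
    rw [e11]
    refine add_mem (AddSubgroup.sum_mem _ fun v _ => ?_) ?_
    · obtain ⟨y, hy, hye⟩ := hBB u v
      have hpol : hH * (hZ * (g'.coeff a * PhH u v - gm u v)) ∈
          A.pol i (dZ + (d1 + dR) + d2) := by
        have e12 : hH * (hZ * (g'.coeff a * PhH u v - gm u v)) =
            (hZ * g'.coeff a) * (hH * PhH u v) - (hZ * gm u v) * hH := by ring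
        rw [e12]
        refine sub_mem ?_ ?_
        · exact hA.pol_mul i _ _ _ _ (hA.den_pol i _ _ (hA.den_mul i _ _ _ _ hhZ hga))
            (hHP u v)
        · refine hA.pol_mono i _ _ ?_
            (hA.pol_mul i _ _ _ _ (hAA u v) (hA.den_pol i _ _ hhH))
          omega
      have hy2 : hH * (hZ * y) ∈ A.pol i (dZ + (d1 + dR) + d2) := by
        refine pol_of_dv hA (M := M) ?_ ?_
        · exact (A.O i).mul_mem (hA.pol_O i _ _ (hA.den_pol i _ _ hhH))
            ((A.O i).mul_mem (hA.pol_O i _ _ (hA.den_pol i _ _ hhZ)) hy)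
        · have : (X.p i : E) ^ M * (hH * (hZ * y)) =
              hH * (hZ * (g'.coeff a * PhH u v - gm u v)) := by
            rw [hye]
            ring
          rw [this]
          exact hpol
      have e13 : T.ι (hH * (hZ * (g'.coeff a * PhH u v - gm u v))) * T.φ i (x v) =
          (X.p i : K) ^ M * (T.ι (hH * (hZ * y)) * T.φ i (x v)) := by
        rw [hye]
        simp only [map_mul, map_pow, map_natCast]
        ring
      rw [e13]
      refine T.anti i _ _ _ _ le_rfl ?_ (T.pw i M _ _ (T.pol i 0 L _ _ _ hy2 (hx v)))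
      push_cast
      have : (0 : ℤ) ≤ dR := Int.natCast_nonneg dR
      omega
    · refine T.anti i _ _ _ _ le_rfl ?_ (T.pol i M (L - dR) (d2 + dZ) _ _
        (hA.den_pol i _ _ (hA.den_mul i _ _ _ _ hhH hhZ)) (hCC u))
      push_cast
      have : (0 : ℤ) ≤ d1 := Int.natCast_nonneg d1
      have : (0 : ℤ) ≤ dR := Int.natCast_nonneg dR
      omega

end Pool.CM.FUN
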