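import Pool.Agent.H91.CUBE.FunLim
import Pool.Agent.H50.CUBE.D4

set_option autoImplicit false

/-!
# MP_47888e_al, cube project: `MC` (lemma FUN) and `MComp` (block D)

`mcomp_inf` : `MC (TG.inf A ..) → MComp (exnInf A ..)`,
`mcomp_0` : `MC ((TG.base A ..).lau ..) → MComp (exn0 A ..)`.
-/

open Polynomial

namespace Pool.CM.FUN

variable {X : Idx} {E : Type} [Field E]

theorem mcomp_inf {A : PF X E} (hA : A.Ax) {i : X.I} {n M C : ℕ} {T : ℤ}
    {m : Type} [Fintype m] {δ : m → LaurentSeries E} {Ph : Matrix m m (RatFunc E)}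
    (h : MC (TG.inf A hA) i n M (X.p i * T) (C * X.p i) δ Ph) :
    Pool.CUBE.D.MComp (Pool.CUBE.D.exnInf A hA) i n M C T δ Ph.transpose := by
  obtain ⟨h0, hh, hP, hc⟩ := h
  refine ⟨h0, hh, fun a b => hP b a, fun b k hk => ?_⟩
  have h1 := hc b k hk
  have e1 : (TG.inf A hA).ι h0 * (∑ c, (TG.inf A hA).φ i (δ c) *
      (TG.inf A hA).ι (Ph b c) - (X.p i : LaurentSeries E) ^ n * δ b) =
      (Pool.CUBE.D.exnInf A hA).ex h0 * (∑ a, Pool.H93.Cube.phiL (A.phi i) (X.p i)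
        (X.hp i).ne_zero (δ a) * (Pool.CUBE.D.exnInf A hA).ex (Ph.transpose a b) -
        HahnSeries.C ((X.p i : E) ^ n) * δ b) := by
    have e2 : (X.p i : LaurentSeries E) ^ n = HahnSeries.C ((X.p i : E) ^ n) := by
      rw [map_pow, map_natCast]
    rw [e2]
    have e3 : ∀ c, (TG.inf A hA).φ i (δ c) =
        Pool.H93.Cube.phiL (A.phi i) (X.p i) (X.hp i).ne_zero (δ c) := fun c =>
      (phiL_eq (A.phi i) (X.p i) (X.hp i).ne_zero (δ c)).symm
    simp_rw [e3]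
    rfl
  rw [e1] at h1
  exact h1

theorem mapL_id (f : LaurentSeries E) : mapL (RingHom.id E) f = f := by
  ext k
  rfl

theorem mcomp_0 {A : PF X E} (hA : A.Ax) (hX : XPHStmt) {i : X.I} {n M C : ℕ}
    {T : ℤ} {m : Type} [Fintype m] {δ : m → LaurentSeries E} {Ph : Matrix m m (RatFunc E)}
    (h : MC ((TG.base A hA).lau hX) i n M (X.p i * T) (C * X.p i) δ Ph) :
    Pool.CUBE.D.MComp (Pool.CUBE.D.exn0 A hA) i n M C T δ Ph.transpose := by
  obtain ⟨h0, hh, hP, hc⟩ := h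
  refine ⟨h0, hh, fun a b => hP b a, fun b k hk => ?_⟩
  have h1 := hc b k hk
  have eι : ∀ x : RatFunc E, ((TG.base A hA).lau hX).ι x = ex E x := fun x => mapL_id _
  have e1 : ((TG.base A hA).lau hX).ι h0 * (∑ c, ((TG.base A hA).lau hX).φ i (δ c) *
      ((TG.base A hA).lau hX).ι (Ph b c) - (X.p i : LaurentSeries E) ^ n * δ b) =
      (Pool.CUBE.D.exn0 A hA).ex h0 * (∑ a, Pool.H93.Cube.phiL (A.phi i) (X.p i)
        (X.hp i).ne_zero (δ a) * (Pool.CUBE.D.exn0 A hA).ex (Ph.transpose a b) -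
        HahnSeries.C ((X.p i : E) ^ n) * δ b) := by
    have e2 : (X.p i : LaurentSeries E) ^ n = HahnSeries.C ((X.p i : E) ^ n) := by
      rw [map_pow, map_natCast]
    rw [e2]
    have e3 : ∀ c, ((TG.base A hA).lau hX).φ i (δ c) =
        Pool.H93.Cube.phiL (A.phi i) (X.p i) (X.hp i).ne_zero (δ c) := fun c =>
      (phiL_eq (A.phi i) (X.p i) (X.hp i).ne_zero (δ c)).symm
    simp_rw [e3, eι]
    rfl
  rw [e1] at h1
  exact h1

end Pool.CM.FUN
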