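import Pool.Agent.H10.CM.FStmts

set_option autoImplicit false

/-!
# MP_47888e_al, cube project, lemma FUN: definitions

* `mapL f`, `phiL f p` : the ring homs `∑ a_k x^k ↦ ∑ f(a_k) x^k` and `∑ a_k x^k ↦ ∑ f(a_k) x^(p k)`
  of Laurent series (coefficients in commutative rings).
* `TG A K` : an extension ring `K` of the PF field `E` with a Frobenius lift and test groups
  `Z i M L` (elements which are `0` modulo `p ^ M` up to order `L`).
* `TG.lau` : the test groups on `LaurentSeries K`, over `A.ext` (`RatFunc E` acts by expansion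
  at `0`).
* `MC T i n M L d δ Ph` : the row `δ : N → K` is compatible with the Frobenius matrix `Ph = Φ'`
  (`Ψ = Φ'ᵀ`) in multiplied form: `h (φ(δ) Ψ - p ^ n δ) ∈ Z i M L`, `h ∈ den i d`,
  `h Ψ ∈ pol i d`.
-/

open Polynomial

namespace Pool.CM.FUN

section Lau

variable {R S U : Type} [CommRing R] [CommRing S] [CommRing U]

/-- a ring hom of the coefficients acting on Laurent series -/
noncomputable def mapL (φ : R →+* S) : LaurentSeries R →+* LaurentSeries S where
  toFun x := x.map φ
  map_one' := by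
    ext k
    rw [HahnSeries.map_coeff, HahnSeries.coeff_one, HahnSeries.coeff_one]
    split_ifs
    · exact map_one φ
    · exact map_zero φ
  map_mul' x y := HahnSeries.map_mul (φ : R →ₙ+* S)
  map_zero' := by
    ext k
    rw [HahnSeries.map_coeff, HahnSeries.coeff_zero, map_zero, HahnSeries.coeff_zero]
  map_add' x y := by
    ext k
    rw [HahnSeries.map_coeff, HahnSeries.coeff_add, HahnSeries.coeff_add, HahnSeries.map_coeff,
      HahnSeries.map_coeff, map_add]

@[simp]
theorem mapL_coeff (φ : R →+* S) (x : LaurentSeries R) (k : ℤ) :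
    (mapL φ x).coeff k = φ (x.coeff k) := rfl

/-- `∑ a_k x^k ↦ ∑ a_k x^(p k)` -/
noncomputable def expL (R : Type) [CommRing R] (p : ℕ) (hp : 0 < p) :
    LaurentSeries R →+* LaurentSeries R :=
  HahnSeries.embDomainRingHom (AddMonoidHom.mulLeft (p : ℤ))
    (fun a b h => by
      have h' : (p : ℤ) * a = p * b := h
      exact mul_left_cancel₀ (by exact_mod_cast hp.ne') h')
    (fun a b => by
      change (p : ℤ) * a ≤ p * b ↔ a ≤ b
      exact mul_le_mul_iff_right₀ (by exact_mod_cast hp))

/-- `∑ a_k x^k ↦ ∑ φ(a_k) x^(p k)` -/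
noncomputable def phiL (φ : R →+* S) (p : ℕ) (hp : 0 < p) :
    LaurentSeries R →+* LaurentSeries S := (expL S p hp).comp (mapL φ)

theorem phiL_coeff_mul (φ : R →+* S) (p : ℕ) (hp : 0 < p) (x : LaurentSeries R) (k : ℤ) :
    (phiL φ p hp x).coeff ((p : ℤ) * k) = φ (x.coeff k) :=
  HahnSeries.embDomain_mk_coeff (f := fun a : ℤ => (p : ℤ) * a) _ _

theorem phiL_coeff_not (φ : R →+* S) (p : ℕ) (hp : 0 < p) (x : LaurentSeries R) (k : ℤ)
    (hk : ¬ (p : ℤ) ∣ k) : (phiL φ p hp x).coeff k = 0 := by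
  refine HahnSeries.embDomain_of_notMem_range ?_
  rintro ⟨a, ha⟩
  have ha' : (p : ℤ) * a = k := ha
  exact hk ⟨a, ha'.symm⟩

theorem phiL_C (φ : R →+* S) (p : ℕ) (hp : 0 < p) (a : R) :
    phiL φ p hp (HahnSeries.C a) = HahnSeries.C (φ a) := by
  ext k
  by_cases hk : (p : ℤ) ∣ k
  · obtain ⟨b, rfl⟩ := hk
    rw [phiL_coeff_mul, HahnSeries.C_apply, HahnSeries.C_apply, HahnSeries.coeff_single,
      HahnSeries.coeff_single]
    have : (p : ℤ) * b = 0 ↔ b = 0 := by
      constructor
      · intro h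
        rcases mul_eq_zero.1 h with h | h
        · exact absurd h (by exact_mod_cast hp.ne')
        · exact h
      · intro h
        rw [h, mul_zero]
    by_cases hb : b = 0
    · rw [if_pos hb, if_pos (this.2 hb)]
    · rw [if_neg hb, if_neg (fun h => hb (this.1 h)), map_zero]
  · rw [phiL_coeff_not φ p hp _ k hk, HahnSeries.C_apply, HahnSeries.coeff_single,
      if_neg]
    rintro rfl
    exact hk (dvd_zero _)

theorem mapL_C (φ : R →+* S) (a : R) :
    mapL φ (HahnSeries.C a) = HahnSeries.C (φ a) := by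
  ext k
  rw [mapL_coeff, HahnSeries.C_apply, HahnSeries.C_apply, HahnSeries.coeff_single,
    HahnSeries.coeff_single]
  split_ifs
  · rfl
  · exact map_zero φ

theorem phiL_mapL (φ : S →+* S) (ι : R →+* S) (ψ : R →+* R) (h : ∀ x, φ (ι x) = ι (ψ x))
    (p : ℕ) (hp : 0 < p) (x : LaurentSeries R) :
    phiL φ p hp (mapL ι x) = mapL ι (phiL ψ p hp x) := by
  ext k
  by_cases hk : (p : ℤ) ∣ k
  · obtain ⟨b, rfl⟩ := hk
    rw [phiL_coeff_mul, mapL_coeff, mapL_coeff, phiL_coeff_mul, h]
  · rw [phiL_coeff_not φ p hp _ k hk, mapL_coeff, phiL_coeff_not ψ p hp _ k hk, map_zero]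

end Lau

variable {X : Idx} {E : Type} [Field E]

theorem ex_phiL (A : PF X E) (h : XPHStmt) (i : X.I) (x : RatFunc E) :
    ex E (A.ext.phi i x) = phiL (A.phi i) (X.p i) (X.hp i).pos (ex E x) := by
  ext k
  obtain ⟨h1, h2⟩ := h X E A i x k
  by_cases hk : (X.p i : ℤ) ∣ k
  · rw [h1 hk]
    obtain ⟨b, rfl⟩ := hk
    rw [phiL_coeff_mul, Int.mul_ediv_cancel_left _ (by exact_mod_cast (X.hp i).ne_zero)]
  · rw [h2 hk, phiL_coeff_not _ _ _ _ _ hk]

/-- An extension ring of a PF field with a Frobenius lift and test groups: `Z i M L` is the group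
of the elements which are `0` modulo `p ^ M` up to order `L`. -/
structure TG (A : PF X E) (K : Type) [CommRing K] where
  ι : E →+* K
  φ : X.I → K →+* K
  φι : ∀ i x, φ i (ι x) = ι (A.phi i x)
  Z : X.I → ℕ → ℤ → AddSubgroup K
  anti : ∀ i M M' L L', M' ≤ M → L' ≤ L → Z i M L ≤ Z i M' L'
  pol : ∀ i M L d x z, x ∈ A.pol i d → z ∈ Z i M L → ι x * z ∈ Z i M (L - d)
  pw : ∀ i M L z, z ∈ Z i 0 L → (X.p i : K) ^ M * z ∈ Z i M L

/-- Compatibility of the row `δ` with the Frobenius matrix `Ph = Φ'`, `Ψ = Φ'ᵀ`, in multiplied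
form. -/
def MC {A : PF X E} {K : Type} [CommRing K] (T : TG A K) (i : X.I) (n M : ℕ) (L : ℤ) (d : ℕ)
    {N : Type} [Fintype N] (δ : N → K) (Ph : Matrix N N E) : Prop :=
  ∃ h ∈ A.den i d, (∀ b c, h * Ph b c ∈ A.pol i d) ∧
    ∀ b, T.ι h * (∑ c, T.φ i (δ c) * T.ι (Ph b c) - (X.p i : K) ^ n * δ b) ∈ T.Z i M L

/-- The coefficient of a product of a polynomial and a Laurent series. -/
theorem coeff_exP_mul {K : Type} [CommRing K] (ι : E →+* K) (g : E[X]) (f : LaurentSeries K)
    (k : ℤ) : (mapL ι (exP E g) * f).coeff k =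
      ∑ j ∈ Finset.range (g.natDegree + 1), ι (g.coeff j) * f.coeff (k - j) := by
  have h1 : mapL ι (exP E g) = ∑ j ∈ Finset.range (g.natDegree + 1),
      HahnSeries.single (j : ℤ) (ι (g.coeff j)) := by
    ext m
    rw [mapL_coeff, HahnSeries.coeff_sum]
    rcases lt_or_ge m 0 with hm | hm
    · rw [exP_coeff_neg g m hm, map_zero, Finset.sum_eq_zero]
      intro j _
      rw [HahnSeries.coeff_single, if_neg (by omega)]
    · obtain ⟨a, rfl⟩ := Int.eq_ofNat_of_zero_le hm
      rw [exP_coeff_nat]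
      by_cases ha : a ∈ Finset.range (g.natDegree + 1)
      · rw [Finset.sum_eq_single_of_mem a ha]
        · rw [HahnSeries.coeff_single_same]
        · intro b _ hb
          rw [HahnSeries.coeff_single, if_neg (fun h => hb (by exact_mod_cast h.symm))]
      · rw [Finset.mem_range, not_lt] at ha
        rw [Polynomial.coeff_eq_zero_of_natDegree_lt (by omega), map_zero,
          Finset.sum_eq_zero]
        intro b hb
        rw [Finset.mem_range] at hb
        rw [HahnSeries.coeff_single, if_neg (fun h => by omega)]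
  rw [h1, Finset.sum_mul, HahnSeries.coeff_sum]
  refine Finset.sum_congr rfl fun j _ => ?_
  rw [HahnSeries.coeff_single_mul]

/-- The test groups on Laurent series. -/
noncomputable def TG.lau {A : PF X E} {K : Type} [CommRing K] (T : TG A K) (h : XPHStmt) :
    TG A.ext (LaurentSeries K) where
  ι := (mapL T.ι).comp (ex E)
  φ i := phiL (T.φ i) (X.p i) (X.hp i).pos
  φι i x := by
    rw [RingHom.comp_apply, RingHom.comp_apply, ex_phiL A h i x]
    exact phiL_mapL (T.φ i) T.ι (A.phi i) (T.φι i) (X.p i) (X.hp i).pos (ex E x)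
  Z i M L :=
    { carrier := {f | ∀ k : ℤ, k ≤ L → f.coeff k ∈ T.Z i M L}
      add_mem' := by
        intro f g hf hg k hk
        rw [HahnSeries.coeff_add]
        exact add_mem (hf k hk) (hg k hk)
      zero_mem' := by
        intro k _
        rw [HahnSeries.coeff_zero]
        exact zero_mem _
      neg_mem' := by
        intro f hf k hk
        rw [HahnSeries.coeff_neg]
        exact neg_mem (hf k hk) }
  anti i M M' L L' hM hL f hf k hk := T.anti i M M' L L' hM hL (hf k (hk.trans hL))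
  pol i M L d x z hx hz k hk := by
    obtain ⟨g, hg, rfl⟩ := hx
    rw [RingHom.comp_apply, ex_algebraMap, coeff_exP_mul]
    refine AddSubgroup.sum_mem _ fun j hj => T.pol i M L d _ _ (hg.2 j) (hz _ ?_)
    have : (0 : ℤ) ≤ j := Int.natCast_nonneg j
    have : (0 : ℤ) ≤ d := Int.natCast_nonneg d
    omega
  pw i M L z hz k hk := by
    have h1 : ((X.p i : LaurentSeries K) ^ M * z).coeff k = (X.p i : K) ^ M * z.coeff k := by
      have h2 : (X.p i : LaurentSeries K) ^ M = HahnSeries.C ((X.p i : K) ^ M) := by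
        rw [map_pow, map_natCast]
      rw [h2, HahnSeries.C_apply, HahnSeries.coeff_single_zero_mul]
    rw [h1]
    exact T.pw i M L _ (hz k hk)

end Pool.CM.FUN
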